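import Pool.Agent.H24.MV.Diverge

/-!
# Collisions between sums of multinomial coefficients
-/

namespace Pool.Agent.Results.MP_dccd56_co.Diverge

open Pool.H24.MV.Diverge

open Filter Finset

/-- **Answer to Q1.** Both normalised sequences tend to infinity, so neither converges to a finite
limit and both limits superior are infinite; moreover `C(n)` and `D(n)` outgrow every power of `n`. -/
theorem result :
    Tendsto a atTop atTop ∧ Tendsto b atTop atTop ∧
      (∀ K : ℕ, Tendsto (fun n : ℕ => (C n : ℝ) / (n : ℝ) ^ K) atTop atTop) ∧
      (∀ K : ℕ, Tendsto (fun n : ℕ => (D n : ℝ) / (n : ℝ) ^ K) atTop atTop) :=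
  Pool.H24.MV.Diverge.result

end Pool.Agent.Results.MP_dccd56_co.Diverge
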